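import Pool.Agent.Run7.h567.GO.Iface

/-!
# Project GO: identities hold at the points (IDT)
-/

set_option autoImplicit false

namespace Run7.h842.GO

open Matrix Polynomial
open Run7.h567.GO

lemma map_aeval_charpoly {A B : Type} [CommRing A] [CommRing B] (f : A →+* B) {n m : ℕ}
    (P : Matrix (Fin n) (Fin n) A) (Q : Matrix (Fin m) (Fin m) A) :
    f.mapMatrix (aeval P Q.charpoly) = aeval (f.mapMatrix P) (f.mapMatrix Q).charpoly := by
  have h1 : (f.mapMatrix Q).charpoly = Q.charpoly.map f := by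
    rw [RingHom.mapMatrix_apply, Matrix.charpoly_map]
  have h2 : (f.mapMatrix : Matrix (Fin n) (Fin n) A →+* Matrix (Fin n) (Fin n) B).comp
      (algebraMap A (Matrix (Fin n) (Fin n) A)) =
      (algebraMap B (Matrix (Fin n) (Fin n) B)).comp f := by
    ext a i j
    simp only [RingHom.comp_apply, RingHom.mapMatrix_apply, Matrix.map_apply,
      Matrix.algebraMap_matrix_apply]
    split_ifs
    · rfl
    · exact map_zero f
  rw [h1, Polynomial.aeval_def, Polynomial.aeval_def, Polynomial.hom_eval₂, Polynomial.eval₂_map,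
    h2]

theorem t_IDT : S_IDT := by
  intro Γ _ E _ n m ρ σ x y hxy
  obtain ⟨φ, hφ1, hφ2⟩ := hxy
  have memρ : ∀ i j, ent ρ i j ∈ bigAlg ρ σ := fun i j =>
    (le_sup_left : coefAlg ρ ≤ bigAlg ρ σ)
      (Algebra.subset_adjoin (Or.inl ⟨(i, j), rfl⟩))
  have memσ : ∀ i j, ent σ i j ∈ bigAlg ρ σ := fun i j =>
    (le_sup_right : coefAlg σ ≤ bigAlg ρ σ)
      (Algebra.subset_adjoin (Or.inl ⟨(i, j), rfl⟩))
  let P : Matrix (Fin n) (Fin n) (bigAlg ρ σ) := fun i j => ⟨ent ρ i j, memρ i j⟩
  let Q : Matrix (Fin m) (Fin m) (bigAlg ρ σ) := fun i j => ⟨ent σ i j, memσ i j⟩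
  let M : Matrix (Fin n) (Fin n) (bigAlg ρ σ) := aeval P Q.charpoly
  let ev : Γ → (bigAlg ρ σ →+* E) := fun g => (Pi.evalRingHom (fun _ : Γ => E) g).comp
    (bigAlg ρ σ).val.toRingHom
  have hev : ∀ g, (ev g).mapMatrix M = aeval (ρ g) (σ g).charpoly := by
    intro g
    rw [map_aeval_charpoly]
    rfl
  have hφM : (φ : bigAlg ρ σ →+* E).mapMatrix M = aeval x y.charpoly := by
    have e1 : (φ : bigAlg ρ σ →+* E).mapMatrix P = x := by
      ext i j
      exact hφ1 i j (memρ i j)
    have e2 : (φ : bigAlg ρ σ →+* E).mapMatrix Q = y := by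
      ext i j
      exact hφ2 i j (memσ i j)
    rw [map_aeval_charpoly, e1, e2]
  have hzero : ∀ a : bigAlg ρ σ, (∀ g, ev g a = 0) → a = 0 := by
    intro a ha
    apply Subtype.ext
    funext g
    exact ha g
  constructor
  · intro k hk
    have hM : M ^ k = 0 := by
      refine Matrix.ext fun i j => ?_
      refine hzero ((M ^ k) i j) (fun g => ?_)
      have h3 : (ev g).mapMatrix (M ^ k) = 0 := by
        rw [map_pow, hev, hk]
      exact congrFun (congrFun h3 i) j
    rw [← hφM, ← map_pow, hM, map_zero]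
  · intro hk
    have hM : M.det = 0 := by
      refine hzero _ (fun g => ?_)
      rw [RingHom.map_det, hev, hk]
    rw [← hφM, ← RingHom.map_det, hM, map_zero]

end Run7.h842.GO
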