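import Pool.Agent.Run7.h567.GO.Iface
import Pool.Agent.H914R2.Core0

/-!
# Project GO: a normal subgroup of unipotent matrices is trivial (NORM)
-/

set_option autoImplicit false

namespace Run7.h842.GO

open Matrix Polynomial
open Run7.h567.GO

section

variable {E : Type} [Field E] {n : ℕ}

lemma nil_of_trace [CharZero E] (M : Matrix (Fin n) (Fin n) E)
    (h : ∀ r : ℕ, (M ^ (r + 1)).trace = 0) : IsNilpotent M := by
  have h1 : IsNilpotent (Matrix.toLinAlgEquiv' M) := by
    refine Pool.Agent.H914.isNilpotent_of_trace_pow _ (fun r => ?_)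
    rw [← map_pow]
    have := h r
    rw [← Matrix.trace_toLin'_eq] at this
    exact this
  obtain ⟨k, hk⟩ := h1
  refine ⟨k, ?_⟩
  rw [← map_pow] at hk
  exact (map_eq_zero_iff _ (Matrix.toLinAlgEquiv' (R := E) (n := Fin n)).injective).1 hk

lemma eq_of_mulVec {A B : Matrix (Fin n) (Fin n) E} (h : ∀ v, A *ᵥ v = B *ᵥ v) : A = B := by
  refine Matrix.ext fun i j => ?_
  have := congrFun (h (Pi.single j 1)) i
  simpa [Matrix.mulVec_single_one] using this

/-- Application to a vector. -/
def appl (u : Fin n → E) : Matrix (Fin n) (Fin n) E →ₗ[E] (Fin n → E) where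
  toFun t := t *ᵥ u
  map_add' a b := Matrix.add_mulVec a b u
  map_smul' c a := by simp [Matrix.smul_mulVec]

lemma pow_fix {t : Matrix (Fin n) (Fin n) E} {u : Fin n → E} (h : t *ᵥ u = u) (k : ℕ) :
    (t ^ k) *ᵥ u = u := by
  induction k with
  | zero => simp
  | succ k ih => rw [pow_succ, ← Matrix.mulVec_mulVec, h, ih]

lemma norm_aux [CharZero E] {Γ : Type} [Group Γ] (ρ : MRep Γ E n) (hρ : Irred ρ)
    (S : Submodule E (Matrix (Fin n) (Fin n) E))
    (hmul : ∀ s ∈ S, ∀ t ∈ S, s * t ∈ S)
    (hconj : ∀ g, ∀ s ∈ S, ρ g * s * ρ g⁻¹ ∈ S)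
    (htr : ∀ s ∈ S, ∀ t ∈ S, (s * t).trace = s.trace * t.trace) :
    ∀ s ∈ S, s.trace = 0 → s = 0 := by
  have hnil : ∀ s ∈ S, s.trace = 0 → IsNilpotent s := by
    intro s hs h0
    refine nil_of_trace s (fun r => ?_)
    have : s ^ (r + 1) ∈ S ∧ (s ^ (r + 1)).trace = 0 := by
      induction r with
      | zero => simpa using ⟨hs, h0⟩
      | succ r ih =>
        rw [pow_succ]
        exact ⟨hmul _ ih.1 _ hs, by rw [htr _ ih.1 _ hs, h0, mul_zero]⟩
    exact this.2
  have key : ∀ d : ℕ, ∀ U : Submodule E (Fin n → E), Module.finrank E U ≤ d → U ≠ ⊥ →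
      (∀ s ∈ S, s.trace = 0 → ∀ u ∈ U, s *ᵥ u ∈ U) →
      ∃ u ∈ U, u ≠ 0 ∧ ∀ s ∈ S, s.trace = 0 → s *ᵥ u = 0 := by
    intro d
    induction d with
    | zero =>
      intro U hU hne _
      exact absurd (Submodule.finrank_eq_zero.1 (Nat.le_zero.1 hU)) hne
    | succ d ih =>
      intro U hU hne hst
      by_cases hall : ∀ u ∈ U, ∀ s ∈ S, s.trace = 0 → s *ᵥ u = 0
      · obtain ⟨u, hu, hu0⟩ := Submodule.exists_mem_ne_zero_of_ne_bot hne
        exact ⟨u, hu, hu0, hall u hu⟩
      · push Not at hall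
        obtain ⟨u, hu, s, hs, hs0, hsu⟩ := hall
        let S₀ : Submodule E (Matrix (Fin n) (Fin n) E) :=
          S ⊓ LinearMap.ker (Matrix.traceLinearMap (Fin n) E E)
        let W : Submodule E (Fin n → E) := S₀.map (appl u)
        have hmem : ∀ t ∈ S, t.trace = 0 → t *ᵥ u ∈ W := fun t ht ht0 =>
          ⟨t, ⟨ht, ht0⟩, rfl⟩
        have hWU : W ≤ U := by
          rintro _ ⟨t, ⟨ht, ht0⟩, rfl⟩
          exact hst t ht ht0 u hu
        have huW : u ∉ W := by
          rintro ⟨t, ⟨ht, ht0⟩, htu⟩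
          obtain ⟨k, hk⟩ := hnil t ht ht0
          have h1 := pow_fix (t := t) (u := u) htu k
          rw [hk, Matrix.zero_mulVec] at h1
          apply hsu
          rw [← h1, Matrix.mulVec_zero]
        have hlt : W < U := lt_of_le_of_ne hWU (fun h => huW (h ▸ hu))
        have hfr := Submodule.finrank_lt_finrank_of_lt hlt
        have hWne : W ≠ ⊥ := by
          intro h
          have := hmem s hs hs0
          rw [h, Submodule.mem_bot] at this
          exact hsu this
        obtain ⟨w, hw, hw0, hws⟩ := ih W (by omega) hWne (by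
          rintro t' ht' ht0' _ ⟨t, ⟨ht, ht0⟩, rfl⟩
          refine ⟨t' * t, ⟨hmul t' ht' t ht, ?_⟩, ?_⟩
          · show (t' * t).trace = 0
            rw [htr t' ht' t ht, ht0', zero_mul]
          · show (t' * t) *ᵥ u = t' *ᵥ (t *ᵥ u)
            rw [Matrix.mulVec_mulVec])
        exact ⟨w, hWU hw, hw0, hws⟩
  let K : Submodule E (Fin n → E) :=
    { carrier := {v | ∀ s ∈ S, s.trace = 0 → s *ᵥ v = 0}
      add_mem' := by
        intro a b ha hb s hs h0
        rw [Matrix.mulVec_add, ha s hs h0, hb s hs h0, add_zero]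
      zero_mem' := by
        intro s _ _
        rw [Matrix.mulVec_zero]
      smul_mem' := by
        intro c a ha s hs h0
        rw [Matrix.mulVec_smul, ha s hs h0, smul_zero] }
  have htop : (⊤ : Submodule E (Fin n → E)) ≠ ⊥ := by
    intro h
    have hn := hρ.1
    have h1 : (Pi.single (⟨0, hn⟩ : Fin n) (1 : E) : Fin n → E) ∈ (⊤ : Submodule E (Fin n → E)) :=
      Submodule.mem_top
    rw [h, Submodule.mem_bot] at h1
    have := congrFun h1 ⟨0, hn⟩
    simp at this
  obtain ⟨u, -, hu0, hus⟩ := key _ ⊤ le_rfl htop (fun _ _ _ _ _ => Submodule.mem_top)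
  have huK : u ∈ K := hus
  have hKst : ∀ g, ∀ v ∈ K, ρ g *ᵥ v ∈ K := by
    intro g v hv s hs h0
    have h1 : ρ g⁻¹ * s * ρ g ∈ S := by
      have := hconj g⁻¹ s hs
      rwa [inv_inv] at this
    have hgg : ρ g * ρ g⁻¹ = 1 := by rw [← map_mul, mul_inv_cancel, map_one]
    have h2 : (ρ g⁻¹ * s * ρ g).trace = 0 := by
      rw [Matrix.trace_mul_comm, ← mul_assoc, hgg, one_mul, h0]
    have h3 := hv _ h1 h2
    have h4 : s * ρ g = ρ g * (ρ g⁻¹ * s * ρ g) := by
      rw [← mul_assoc, ← mul_assoc, hgg, one_mul]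
    rw [Matrix.mulVec_mulVec, h4, ← Matrix.mulVec_mulVec, h3, Matrix.mulVec_zero]
  have hK : K = ⊤ := by
    rcases hρ.2 K hKst with h | h
    · rw [h, Submodule.mem_bot] at huK
      exact absurd huK hu0
    · exact h
  intro s hs h0
  refine eq_of_mulVec (fun v => ?_)
  have hv : v ∈ K := by rw [hK]; exact Submodule.mem_top
  rw [hv s hs h0, Matrix.zero_mulVec]

end

theorem t_NORM : S_NORM := by
  intro Γ _ E _ _ _ n ρ hρ X h1 hXm hXc hX
  let S : Submodule E (Matrix (Fin n) (Fin n) E) := Submodule.span E {s | ∃ x ∈ X, s = x - 1}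
  have hgen : ∀ x ∈ X, x - 1 ∈ S := fun x hx => Submodule.subset_span ⟨x, hx, rfl⟩
  have hprod : ∀ x y : Matrix (Fin n) (Fin n) E,
      (x - 1) * (y - 1) = (x * y - 1) - (x - 1) - (y - 1) := by
    intro x y
    noncomm_ring
  have hmul : ∀ s ∈ S, ∀ t ∈ S, s * t ∈ S := by
    intro s hs t ht
    have hle : S * S ≤ S := by
      rw [Submodule.span_mul_span]
      refine Submodule.span_le.2 ?_
      rintro _ ⟨_, ⟨x, hx, rfl⟩, _, ⟨y, hy, rfl⟩, rfl⟩
      show (x - 1) * (y - 1) ∈ S
      rw [hprod]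
      exact S.sub_mem (S.sub_mem (hgen _ (hXm x hx y hy)) (hgen x hx)) (hgen y hy)
    exact hle (Submodule.mul_mem_mul hs ht)
  have hgg : ∀ g, ρ g * ρ g⁻¹ = 1 := fun g => by rw [← map_mul, mul_inv_cancel, map_one]
  have hconj : ∀ g, ∀ s ∈ S, ρ g * s * ρ g⁻¹ ∈ S := by
    intro g s hs
    induction hs using Submodule.span_induction with
    | mem s hs =>
      obtain ⟨x, hx, rfl⟩ := hs
      have : ρ g * (x - 1) * ρ g⁻¹ = ρ g * x * ρ g⁻¹ - 1 := by
        rw [mul_sub, sub_mul, mul_one, hgg]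
      rw [this]
      exact hgen _ (hXc g x hx)
    | zero => simp
    | add a b _ _ iha ihb =>
      rw [mul_add, add_mul]
      exact S.add_mem iha ihb
    | smul c a _ iha =>
      rw [mul_smul_comm, smul_mul_assoc]
      exact S.smul_mem c iha
  -- the trace is multiplicative on the generators
  have hbase : ∀ x ∈ X, ∀ y ∈ X, ((x - 1) * (y - 1)).trace = (x - 1).trace * (y - 1).trace := by
    rcases hX with hX | ⟨hn, hX⟩
    · have h0 : ∀ x ∈ X, (x - 1).trace = 0 := fun x hx =>
        (Matrix.isNilpotent_trace_of_isNilpotent (hX x hx)).eq_zero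
      intro x hx y hy
      rw [hprod, Matrix.trace_sub, Matrix.trace_sub, h0 _ (hXm x hx y hy), h0 x hx, h0 y hy]
      simp
    · subst hn
      have h0 : ∀ x ∈ X, x.trace = 1 + x.det := by
        intro x hx
        have := hX x hx
        rw [Matrix.det_fin_two] at this
        simp only [Matrix.sub_apply, Matrix.one_apply_eq, ne_eq, Fin.isValue, zero_ne_one,
          not_false_eq_true, Matrix.one_apply_ne, one_ne_zero, sub_zero] at this
        rw [Matrix.trace_fin_two, Matrix.det_fin_two]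
        linear_combination -this
      intro x hx y hy
      have e1 := h0 x hx
      have e2 := h0 y hy
      have e3 := h0 _ (hXm x hx y hy)
      rw [Matrix.det_mul] at e3
      rw [hprod, Matrix.trace_sub, Matrix.trace_sub, Matrix.trace_sub, Matrix.trace_sub,
        Matrix.trace_sub, e1, e2, e3]
      have e4 : (1 : Matrix (Fin 2) (Fin 2) E).trace = 2 := by simp
      rw [e4]
      ring
  have htr : ∀ s ∈ S, ∀ t ∈ S, (s * t).trace = s.trace * t.trace := by
    intro s hs t ht
    induction hs using Submodule.span_induction with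
    | mem s hs =>
      obtain ⟨x, hx, rfl⟩ := hs
      induction ht using Submodule.span_induction with
      | mem t ht =>
        obtain ⟨y, hy, rfl⟩ := ht
        exact hbase x hx y hy
      | zero => simp
      | add a b _ _ iha ihb => rw [mul_add, Matrix.trace_add, iha, ihb, Matrix.trace_add, mul_add]
      | smul c a _ iha =>
        rw [mul_smul_comm, Matrix.trace_smul, Matrix.trace_smul, iha, smul_eq_mul, smul_eq_mul]
        ring
    | zero => simp
    | add a b _ _ iha ihb => rw [add_mul, Matrix.trace_add, iha, ihb, Matrix.trace_add, add_mul]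
    | smul c a _ iha =>
      rw [smul_mul_assoc, Matrix.trace_smul, Matrix.trace_smul, iha, smul_eq_mul, smul_eq_mul]
      ring
  have main := norm_aux ρ hρ S hmul hconj htr
  intro x hx
  rcases hX with hX | ⟨hn, hX⟩
  · have h2 := main _ (hgen x hx) (Matrix.isNilpotent_trace_of_isNilpotent (hX x hx)).eq_zero
    exact sub_eq_zero.1 h2
  · subst hn
    by_contra hne
    have hs := hgen x hx
    have hs0 : x - 1 ≠ 0 := sub_ne_zero.2 hne
    have ht0 : (x - 1).trace ≠ 0 := fun h => hs0 (main _ hs h)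
    set e : Matrix (Fin 2) (Fin 2) E := ((x - 1).trace)⁻¹ • (x - 1) with he
    have heS : e ∈ S := S.smul_mem _ hs
    have het : e.trace = 1 := by
      rw [he, Matrix.trace_smul, smul_eq_mul, inv_mul_cancel₀ ht0]
    have hee : e * e = e := by
      have h3 : e * e - e = 0 := by
        refine main _ (S.sub_mem (hmul e heS e heS) heS) ?_
        rw [Matrix.trace_sub, htr e heS e heS, het]
        ring
      exact sub_eq_zero.1 h3
    have hcomm : ∀ g, ρ g * e * ρ g⁻¹ = e := by
      intro g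
      have h3 : ρ g * e * ρ g⁻¹ - e = 0 := by
        refine main _ (S.sub_mem (hconj g e heS) heS) ?_
        have hgg' : ρ g⁻¹ * ρ g = 1 := by rw [← map_mul, inv_mul_cancel, map_one]
        rw [Matrix.trace_sub, Matrix.trace_mul_comm, ← mul_assoc, hgg', one_mul, sub_self]
      exact sub_eq_zero.1 h3
    have hcomm' : ∀ g, ρ g * e = e * ρ g := by
      intro g
      have hgg' : ρ g⁻¹ * ρ g = 1 := by rw [← map_mul, inv_mul_cancel, map_one]
      calc ρ g * e = ρ g * e * (ρ g⁻¹ * ρ g) := by rw [hgg', mul_one]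
        _ = (ρ g * e * ρ g⁻¹) * ρ g := by rw [mul_assoc (ρ g * e)]
        _ = e * ρ g := by rw [hcomm]
    let W : Submodule E (Fin 2 → E) := LinearMap.range (Matrix.mulVecLin e)
    have hWst : ∀ g, ∀ u ∈ W, ρ g *ᵥ u ∈ W := by
      rintro g _ ⟨v, rfl⟩
      refine ⟨ρ g *ᵥ v, ?_⟩
      show e *ᵥ (ρ g *ᵥ v) = ρ g *ᵥ (e *ᵥ v)
      rw [Matrix.mulVec_mulVec, Matrix.mulVec_mulVec, hcomm']
    rcases hρ.2 W hWst with hW | hW
    · have h4 : e = 0 := by
        refine eq_of_mulVec (fun v => ?_)
        have : e *ᵥ v ∈ W := ⟨v, rfl⟩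
        rw [hW, Submodule.mem_bot] at this
        rw [this, Matrix.zero_mulVec]
      rw [h4] at het
      simp at het
    · have h4 : e = 1 := by
        refine eq_of_mulVec (fun v => ?_)
        have : v ∈ W := by rw [hW]; exact Submodule.mem_top
        obtain ⟨w, hw⟩ := this
        have hw' : e *ᵥ w = v := hw
        rw [← hw', Matrix.mulVec_mulVec, hee, Matrix.one_mulVec]
      rw [h4] at het
      have e4 : (1 : Matrix (Fin 2) (Fin 2) E).trace = 2 := by simp
      rw [e4] at het
      have : (1 : E) = 0 := by linear_combination het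
      exact one_ne_zero this

end Run7.h842.GO
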